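import Mathlib

/-!
Rooted digraphs, walks, cuts, and the edge version of Menger's theorem for
finitely many paths in an arbitrary (possibly infinite) rooted digraph.
-/

open Set

namespace Pool.Agent.H38.Flame

universe u w

/-- An `r`-rooted digraph: arbitrary vertex and edge types, parallel edges
allowed, no loops, no edge enters the root. -/
structure RootedDigraph (V : Type u) (E : Type w) where
  /-- tail of an edge -/
  src : E → V
  /-- head of an edge -/
  tgt : E → V
  /-- the root -/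
  root : V
  loopless : ∀ e, src e ≠ tgt e
  no_in : ∀ e, tgt e ≠ root

namespace RootedDigraph

variable {V : Type u} {E : Type w} (D : RootedDigraph V E)

/-- `IsWalk u l v`: the list `l` of edges is a directed walk from `u` to `v`. -/
def IsWalk : V → List E → V → Prop
  | u, [], v => u = v
  | u, e :: l, v => D.src e = u ∧ IsWalk (D.tgt e) l v

/-- `P` is the edge set of a directed path from the root to `v`. -/
def IsRootPath (v : V) (P : Set E) : Prop :=
  ∃ l : List E, D.IsWalk D.root l v ∧ (D.root :: l.map D.tgt).Nodup ∧ P = {e | e ∈ l}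

/-- `Q` is a family of pairwise edge-disjoint paths from the root to `v`, all
of them using edges of `L` only. -/
def IsPathFamily (L : Set E) (v : V) (Q : Set (Set E)) : Prop :=
  (∀ P ∈ Q, D.IsRootPath v P ∧ P ⊆ L) ∧ Q.PairwiseDisjoint id

/-- `F` is a flame: for every `v ≠ r` the edges of `F` entering `v` are covered
by pairwise edge-disjoint `rv`-paths inside `F`. -/
def IsFlame (F : Set E) : Prop :=
  ∀ v, v ≠ D.root → ∃ Q, D.IsPathFamily F v Q ∧ ∀ e ∈ F, D.tgt e = v → e ∈ ⋃₀ Q

/-- `C` is an `rv`-cut: it meets every `rv`-path. -/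
def IsCut (v : V) (C : Set E) : Prop :=
  ∀ P, D.IsRootPath v P → (P ∩ C).Nonempty

/-- `L` is large at `v`: there are pairwise edge-disjoint `rv`-paths inside `L`
and an `rv`-cut of the whole digraph consisting of exactly one edge from each
of these paths. -/
def IsLargeAt (L : Set E) (v : V) : Prop :=
  ∃ Q C, D.IsPathFamily L v Q ∧ D.IsCut v C ∧ C ⊆ ⋃₀ Q ∧ ∀ P ∈ Q, ∃! e, e ∈ P ∩ C

/-! ### walks -/

variable {D}

theorem IsWalk.append {u v x : V} {l m : List E} (h : D.IsWalk u l v) (h' : D.IsWalk v m x) :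
    D.IsWalk u (l ++ m) x := by
  induction l generalizing u with
  | nil => cases h; exact h'
  | cons e l ih => exact ⟨h.1, ih h.2⟩

theorem IsWalk.enter {u v : V} {l : List E} (h : D.IsWalk u l v) {X : Set V} (hu : u ∉ X)
    (hv : v ∈ X) : ∃ e ∈ l, D.src e ∉ X ∧ D.tgt e ∈ X := by
  induction l generalizing u with
  | nil => cases h; exact absurd hv hu
  | cons e l ih =>
    obtain ⟨h1, h2⟩ := h
    by_cases ht : D.tgt e ∈ X
    · exact ⟨e, by simp, by rw [h1]; exact hu, ht⟩
    · obtain ⟨f, hf, h3⟩ := ih h2 ht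
      exact ⟨f, by simp [hf], h3⟩

theorem IsWalk.suffix {a v : V} {m : List E} (h : D.IsWalk a m v)
    (hn : (a :: m.map D.tgt).Nodup) {u : V} (hu : u ∈ a :: m.map D.tgt) :
    ∃ m', D.IsWalk u m' v ∧ (u :: m'.map D.tgt).Nodup ∧ ∀ e ∈ m', e ∈ m := by
  induction m generalizing a with
  | nil =>
    have : u = a := by simpa using hu
    subst this
    exact ⟨[], h, by simp, by simp⟩
  | cons e l ih =>
    by_cases hua : u = a
    · subst hua
      exact ⟨e :: l, h, hn, fun _ h => h⟩
    · have hu' : u ∈ D.tgt e :: l.map D.tgt := by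
        have := List.mem_cons.1 hu
        rcases this with h1 | h1
        · exact absurd h1 hua
        · simpa using h1
      have hn' : (D.tgt e :: l.map D.tgt).Nodup := by
        have := List.nodup_cons.1 hn
        simpa using this.2
      obtain ⟨m', h1, h2, h3⟩ := ih h.2 hn' hu'
      exact ⟨m', h1, h2, fun f hf => by simp [h3 f hf]⟩

theorem IsWalk.shorten {u v : V} {l : List E} (h : D.IsWalk u l v) :
    ∃ m, D.IsWalk u m v ∧ (u :: m.map D.tgt).Nodup ∧ ∀ e ∈ m, e ∈ l := by
  induction l generalizing u with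
  | nil => exact ⟨[], h, by simp, by simp⟩
  | cons e l ih =>
    obtain ⟨m, h1, h2, h3⟩ := ih h.2
    by_cases hu : u ∈ D.tgt e :: m.map D.tgt
    · obtain ⟨m', g1, g2, g3⟩ := h1.suffix h2 hu
      exact ⟨m', g1, g2, fun f hf => by simp [h3 f (g3 f hf)]⟩
    · refine ⟨e :: m, ⟨h.1, h1⟩, ?_, ?_⟩
      · simp only [List.map_cons]
        exact List.nodup_cons.2 ⟨hu, h2⟩
      · intro f hf
        rcases List.mem_cons.1 hf with hf | hf
        · simp [hf]
        · simp [h3 f hf]

theorem tgt_inj_of_nodup {u : V} {m : List E} (h : (u :: m.map D.tgt).Nodup) {a b : E}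
    (ha : a ∈ m) (hb : b ∈ m) (hab : D.tgt a = D.tgt b) : a = b := by
  have h1 : (m.map D.tgt).Nodup := (List.nodup_cons.1 h).2
  exact List.inj_on_of_nodup_map h1 ha hb hab

/-! ### cuts -/

variable (D)

/-- edges of `L` entering the vertex set `X` -/
def din (L : Set E) (X : Set V) : Set E := {e | e ∈ L ∧ D.src e ∉ X ∧ D.tgt e ∈ X}

/-- edges of `L` entering the vertex `v` -/
def inn (L : Set E) (v : V) : Set E := {e | e ∈ L ∧ D.tgt e = v}

variable {D}

theorem din_mono {L L' : Set E} (h : L ⊆ L') (X : Set V) : D.din L X ⊆ D.din L' X :=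
  fun _ he => ⟨h he.1, he.2⟩

theorem inn_mono {L L' : Set E} (h : L ⊆ L') (v : V) : D.inn L v ⊆ D.inn L' v :=
  fun _ he => ⟨h he.1, he.2⟩

theorem din_singleton (L : Set E) (v : V) : D.din L {v} = D.inn L v := by
  ext e
  constructor
  · rintro ⟨h1, -, h3⟩
    exact ⟨h1, h3⟩
  · rintro ⟨h1, h2⟩
    refine ⟨h1, ?_, h2⟩
    intro h3
    exact D.loopless e (by rw [h2]; exact h3)

theorem din_submod (L : Set E) (X Y : Set V) :
    (D.din L (X ∪ Y)).encard + (D.din L (X ∩ Y)).encard
      ≤ (D.din L X).encard + (D.din L Y).encard := by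
  rw [← encard_union_add_encard_inter, ← encard_union_add_encard_inter (D.din L X)]
  refine add_le_add (encard_le_encard ?_) (encard_le_encard ?_)
  · rintro e (⟨h1, h2, h3⟩ | ⟨h1, h2, h3⟩)
    · rcases h3 with h3 | h3
      · exact Or.inl ⟨h1, fun h => h2 (Or.inl h), h3⟩
      · exact Or.inr ⟨h1, fun h => h2 (Or.inr h), h3⟩
    · by_cases h4 : D.src e ∈ X
      · exact Or.inr ⟨h1, fun h => h2 ⟨h4, h⟩, h3.2⟩
      · exact Or.inl ⟨h1, h4, h3.1⟩
  · rintro e ⟨⟨h1, h2, h3⟩, ⟨h4, h5, h6⟩⟩
    exact ⟨⟨h1, fun h => h2 (Or.inl h), h6.1⟩, ⟨h1, fun h => h2 (Or.inr h), h6.2⟩⟩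

end RootedDigraph

end Pool.Agent.H38.Flame
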