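import Pool.Agent.H38.Flame.Local

open Set

namespace Pool.Agent.H38.Flame

universe u w

namespace RootedDigraph

variable {V : Type u} {E : Type w} {D : RootedDigraph V E}

/-- vertices reachable from the root by walks inside `L` -/
def Reach (D : RootedDigraph V E) (L : Set E) : Set V :=
  {z | ∃ l, D.IsWalk D.root l z ∧ ∀ e ∈ l, e ∈ L}

theorem root_mem_reach (L : Set E) : D.root ∈ D.Reach L := ⟨[], rfl, by simp⟩

theorem reach_step {L : Set E} {e : E} (he : e ∈ L) (h : D.src e ∈ D.Reach L) :
    D.tgt e ∈ D.Reach L := by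
  obtain ⟨l, h1, h2⟩ := h
  refine ⟨l ++ [e], h1.append ⟨rfl, rfl⟩, ?_⟩
  intro f hf
  rcases List.mem_append.1 hf with hf | hf
  · exact h2 f hf
  · have : f = e := by simpa using hf
    rw [this]; exact he

/-- a flame together with fixed linkages at the vertices of the finite set `T` -/
structure Good (D : RootedDigraph V E) (T : Finset V) (M : Set E) (c : V → E → List E) :
    Prop where
  flame : ∀ v, D.FlameAt M v
  fin : ∀ w ∈ T, (D.inn M w).Finite
  ne : ∀ w ∈ T, w ≠ D.root
  link : ∀ w ∈ T, D.Link M w (c w)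

/-- finite extensions respecting the linkages fixed at the vertices of `T` -/
structure Ext (D : RootedDigraph V E) (T : Finset V) (M : Set E) (c : V → E → List E)
    (M' : Set E) (c' : V → E → List E) : Prop where
  sub : M ⊆ M'
  fin : (M' \ M).Finite
  small : ∀ e ∈ M' \ M, (D.inn M' (D.tgt e)).Finite
  mark : ∀ w ∈ T, ∀ a ∈ D.inn M w, c' w a = c w a

theorem Ext.refl (T : Finset V) (M : Set E) (c : V → E → List E) : D.Ext T M c M c :=
  ⟨subset_rfl, by simp, by simp, fun _ _ _ _ => rfl⟩

theorem Ext.trans {T : Finset V} {M M' M'' : Set E} {c c' c'' : V → E → List E}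
    (h : D.Ext T M c M' c') (h' : D.Ext T M' c' M'' c'') : D.Ext T M c M'' c'' := by
  have hfin : (M'' \ M).Finite := by
    refine (h.fin.union h'.fin).subset ?_
    intro e he
    by_cases h1 : e ∈ M'
    · exact Or.inl ⟨h1, he.2⟩
    · exact Or.inr ⟨he.1, h1⟩
  refine ⟨h.sub.trans h'.sub, hfin, ?_, ?_⟩
  · intro e he
    by_cases h1 : e ∈ M'
    · have h2 := h.small e ⟨h1, he.2⟩
      refine (h2.union h'.fin).subset ?_
      intro f hf
      by_cases h3 : f ∈ M'
      · exact Or.inl ⟨h3, hf.2⟩
      · exact Or.inr ⟨hf.1, h3⟩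
    · exact h'.small e ⟨he.1, h1⟩
  · intro w hw a ha
    rw [h'.mark w hw a (inn_mono h.sub w ha), h.mark w hw a ha]

/-- vertices of infinite local connectivity, in terms of cuts -/
def InfV (D : RootedDigraph V E) (t : V) : Prop :=
  t ≠ D.root ∧ ∀ X : Set V, t ∈ X → D.root ∉ X → (D.din univ X).Infinite

theorem inn_insert_ne {M : Set E} {e : E} {v : V} (h : D.tgt e ≠ v) :
    D.inn (insert e M) v = D.inn M v := by
  ext a
  constructor
  · rintro ⟨h1 | h1, h2⟩
    · subst h1; exact absurd h2 h
    · exact ⟨h1, h2⟩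
  · rintro ⟨h1, h2⟩; exact ⟨Or.inr h1, h2⟩

theorem inn_insert_eq {M : Set E} {e : E} :
    D.inn (insert e M) (D.tgt e) = insert e (D.inn M (D.tgt e)) := by
  ext a
  constructor
  · rintro ⟨h1 | h1, h2⟩
    · exact Or.inl h1
    · exact Or.inr ⟨h1, h2⟩
  · rintro (h1 | ⟨h1, h2⟩)
    · subst h1; exact ⟨Or.inl rfl, rfl⟩
    · exact ⟨Or.inr h1, h2⟩

theorem core {T : Finset V} {M : Set E} {c : V → E → List E} (hG : D.Good T M c)
    (I : Finset V) (hI : I ⊆ T) (n : ℕ)
    (hU : (⋃ w ∈ I, ⋃ a ∈ D.inn M w, {e | e ∈ c w a} : Set E).encard ≤ n)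
    (hbig : ∀ w ∈ T, w ∉ I → (n : ℕ∞) < (D.inn M w).encard) {t : V} (ht : t ∈ I)
    (hinf : D.InfV t) :
    ∃ M' c', D.Good T M' c' ∧ D.Ext T M c M' c' ∧ ∃ w ∈ I, ∃ a ∈ D.inn M' w, a ∉ D.inn M w := by
  classical
  set U : Set E := ⋃ w ∈ I, ⋃ a ∈ D.inn M w, {e | e ∈ c w a} with hUdef
  have hmem : ∀ w ∈ I, ∀ a ∈ D.inn M w, ∀ e ∈ c w a, e ∈ U := by
    intro w hw a ha e he
    simp only [hUdef, mem_iUnion]
    exact ⟨w, hw, a, ha, he⟩
  obtain ⟨p, hp1, hp2⟩ := menger (D := D) univ hinf.1 (n + 1) (by
    intro X h1 h2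
    rw [(hinf.2 X h1 h2).encard_eq]
    exact le_top)
  set H : Finset E := Finset.univ.biUnion (fun i => (p i).toFinset) with hH
  have main : ∀ m : ℕ, ∀ M' : Set E, M ⊆ M' → (M' \ M).Finite →
      (∀ e ∈ M' \ M, (D.inn M' (D.tgt e)).Finite) → (∀ v, D.FlameAt M' v) →
      (∀ w ∈ T, D.inn M' w = D.inn M w) → (H.filter (fun e => e ∉ M')).card = m →
      ∃ M' c', D.Good T M' c' ∧ D.Ext T M c M' c' ∧ ∃ w ∈ I, ∃ a ∈ D.inn M' w, a ∉ D.inn M w := by
    intro m
    induction m using Nat.strong_induction_on with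
    | _ m ih =>
    intro M' hMM' hfin hsmall hfl hT hm
    set W : Set V := (D.Reach (M' \ U))ᶜ with hW
    have hrW : D.root ∉ W := fun h => h (root_mem_reach _)
    have hIW : ∀ w ∈ I, w ∈ W := by
      rintro w hw ⟨l, hl1, hl2⟩
      obtain ⟨e, he1, he2, he3⟩ := hl1.enter (X := {w})
        (fun h => (hG.ne w (hI hw)) h.symm) rfl
      have h1 : e ∈ D.inn M' w := ⟨(hl2 e he1).1, he3⟩
      rw [hT w (hI hw)] at h1
      exact (hl2 e he1).2 (hmem w hw e h1 e ((hG.link w (hI hw)).1 e h1).2.2)
    have hWU : D.din M' W ⊆ U := by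
      rintro e ⟨h1, h2, h3⟩
      by_contra h4
      exact h3 (reach_step ⟨h1, h4⟩ (not_not.1 h2))
    obtain ⟨X, hWX, hrX, hXW, hXmax⟩ := exists_maxmin (D := D) M' W hrW
    have hXn : (D.din M' X).encard ≤ n := hXW.trans ((encard_le_encard hWU).trans hU)
    -- a new edge entering X
    have hnew : ∃ e ∈ H, e ∉ M' ∧ D.src e ∉ X ∧ D.tgt e ∈ X := by
      by_contra hcon
      push Not at hcon
      have h1 : ∀ i, ∃ e ∈ p i, e ∈ D.din M' X := by
        intro i
        obtain ⟨e, he1, he2, he3⟩ := (hp1 i).1.enter hrX (hWX (hIW t ht))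
        refine ⟨e, he1, ?_, he2, he3⟩
        by_contra h4
        have heH : e ∈ H := by
          rw [hH, Finset.mem_biUnion]
          exact ⟨i, Finset.mem_univ _, by simpa using he1⟩
        exact hcon e heH h4 he2 he3
      choose g hg1 hg2 using h1
      have hginj : Function.Injective g := by
        intro i j hij
        by_contra hne
        exact hp2 i j hne (g i) (hg1 i) (by rw [hij]; exact hg1 j)
      have h2 : (Set.range g).encard ≤ (D.din M' X).encard :=
        encard_le_encard (by rintro _ ⟨i, rfl⟩; exact hg2 i)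
      rw [← image_univ, hginj.injOn.encard_image] at h2
      have h3 : ((n + 1 : ℕ) : ℕ∞) ≤ n := by
        refine le_trans ?_ (h2.trans hXn)
        simp
      have h4 : n + 1 ≤ n := by exact_mod_cast h3
      omega
    obtain ⟨e, heH, heM, hes, het⟩ := hnew
    have hinn : (D.inn M' (D.tgt e)).encard ≤ n := ((hfl _).le_din het hrX).trans hXn
    have hinnfin : (D.inn M' (D.tgt e)).Finite := by
      rw [← encard_lt_top_iff]
      exact lt_of_le_of_lt hinn (ENat.natCast_lt_top n)
    have hsub : M ⊆ insert e M' := hMM'.trans (subset_insert e M')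
    have hfin' : (insert e M' \ M).Finite := by
      refine (hfin.insert e).subset ?_
      rintro f ⟨hf | hf, hf2⟩
      · exact Or.inl hf
      · exact Or.inr ⟨hf, hf2⟩
    have hsmall' : ∀ f ∈ insert e M' \ M, (D.inn (insert e M') (D.tgt f)).Finite := by
      have h0 : ∀ v, (D.inn M' v).Finite → (D.inn (insert e M') v).Finite := by
        intro v hv
        refine (hv.insert e).subset ?_
        rintro g ⟨hg | hg, hg2⟩
        · exact Or.inl hg
        · exact Or.inr ⟨hg, hg2⟩
      rintro f ⟨hf | hf, hf2⟩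
      · rw [hf]; exact h0 _ hinnfin
      · exact h0 _ (hsmall f ⟨hf, hf2⟩)
    by_cases hxI : D.tgt e ∈ I
    · -- success
      have hsr : D.src e ∈ D.Reach (M' \ U) := by
        by_contra h1
        exact hes (hWX h1)
      obtain ⟨l, hl1, hl2⟩ := hsr
      have hxT := hI hxI
      have hinM : D.inn M' (D.tgt e) = D.inn M (D.tgt e) := hT _ hxT
      have hlinkx := hG.link _ hxT
      have hlink : D.Link (insert e M') (D.tgt e)
          (Function.update (c (D.tgt e)) e (l ++ [e])) := by
        have hene : ∀ a ∈ D.inn M (D.tgt e), a ≠ e := by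
          intro a ha hae
          rw [hae] at ha
          exact heM (hMM' ha.1)
        refine ⟨?_, ?_⟩
        · intro a ha
          rw [inn_insert_eq] at ha
          rcases ha with ha | ha
          · subst ha
            rw [Function.update_self]
            refine ⟨hl1.append ⟨rfl, rfl⟩, ?_, by simp⟩
            intro f hf
            rcases List.mem_append.1 hf with hf | hf
            · exact Or.inr (hl2 f hf).1
            · have : f = a := by simpa using hf
              rw [this]; exact Or.inl rfl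
          · rw [hinM] at ha
            rw [Function.update_of_ne (hene a ha)]
            obtain ⟨h1, h2, h3⟩ := hlinkx.1 a ha
            exact ⟨h1, fun f hf => Or.inr (hMM' (h2 f hf)), h3⟩
        · have haux : ∀ a ∈ D.inn M (D.tgt e), ∀ f ∈ c (D.tgt e) a, f ∉ l ++ [e] := by
            intro a ha f hf hf2
            rcases List.mem_append.1 hf2 with hf2 | hf2
            · exact (hl2 f hf2).2 (hmem _ hxI a ha f hf)
            · have : f = e := by simpa using hf2
              rw [this] at hf
              exact heM (hMM' ((hlinkx.1 a ha).2.1 e hf))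
          intro a ha b hb hab
          rw [inn_insert_eq] at ha hb
          rcases ha with ha | ha
          · subst ha
            rcases hb with hb | hb
            · exact absurd hb.symm hab
            · rw [hinM] at hb
              rw [Function.update_self, Function.update_of_ne (hene b hb)]
              intro f hf hf2
              exact haux b hb f hf2 hf
          · rw [hinM] at ha
            rw [Function.update_of_ne (hene a ha)]
            rcases hb with hb | hb
            · subst hb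
              rw [Function.update_self]
              exact haux a ha
            · rw [hinM] at hb
              rw [Function.update_of_ne (hene b hb)]
              exact hlinkx.2 a ha b hb hab
      refine ⟨insert e M', Function.update c (D.tgt e)
        (Function.update (c (D.tgt e)) e (l ++ [e])), ⟨?_, ?_, hG.ne, ?_⟩,
        ⟨hsub, hfin', hsmall', ?_⟩, D.tgt e, hxI, e, ⟨Or.inl rfl, rfl⟩, fun h => heM (hMM' h.1)⟩
      · intro v
        by_cases hv : D.tgt e = v
        · subst hv; exact ⟨_, hlink⟩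
        · exact (hfl v).mono (subset_insert e M') (inn_insert_ne hv)
      · intro w hw
        by_cases hv : D.tgt e = w
        · subst hv; rw [inn_insert_eq]; exact hinnfin.insert e
        · rw [inn_insert_ne hv, hT w hw]; exact hG.fin w hw
      · intro w hw
        by_cases hv : w = D.tgt e
        · subst hv; rw [Function.update_self]; exact hlink
        · rw [Function.update_of_ne hv]
          refine (hG.link w hw).mono hsub ?_
          rw [inn_insert_ne (fun h => hv h.symm), hT w hw]
      · intro w hw a ha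
        by_cases hv : w = D.tgt e
        · subst hv
          rw [Function.update_self, Function.update_of_ne]
          intro hae
          rw [hae] at ha
          exact heM (hMM' ha.1)
        · rw [Function.update_of_ne hv]
    by_cases hxT : D.tgt e ∈ T
    · exfalso
      have h1 := hbig _ hxT hxI
      rw [← hT _ hxT] at h1
      exact absurd h1 (not_lt.2 hinn)
    by_cases hfl' : ∀ v, D.FlameAt (insert e M') v
    · refine ih _ ?_ (insert e M') hsub hfin' hsmall' hfl' ?_ rfl
      · rw [← hm]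
        refine Finset.card_lt_card ?_
        rw [Finset.ssubset_iff_of_subset]
        · refine ⟨e, by simp [heH, heM], by simp⟩
        · intro f hf
          simp only [Finset.mem_filter] at hf ⊢
          exact ⟨hf.1, fun h => hf.2 (Or.inr h)⟩
      · intro w hw
        rw [inn_insert_ne (fun h => hxT (by rw [h]; exact hw)), hT w hw]
    · exfalso
      obtain ⟨Y, hY1, hY2, hY3, hY4⟩ := exists_tight hfl heM hinnfin hfl'
      have h1 := uncross (hfl _) het hY1 hrX hinnfin hY4
      have h2 := hXmax (X ∪ Y) subset_union_left (fun h => h.elim hrX hY3) h1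
      exact hes (h2 (Or.inr hY2))
  exact main _ M subset_rfl (by simp) (by simp) hG.flame (fun _ _ => rfl) rfl

/-- above `(M, c)` no edge can be added at `w` -/
def Frozen (D : RootedDigraph V E) (T : Finset V) (M : Set E) (c : V → E → List E) (w : V) :
    Prop :=
  ∀ M' c', D.Good T M' c' → D.Ext T M c M' c' → D.inn M' w = D.inn M w

theorem Frozen.ext {T : Finset V} {M M' : Set E} {c c' : V → E → List E} {w : V}
    (h : D.Frozen T M c w) (hG : D.Good T M' c') (hE : D.Ext T M c M' c') :
    D.Frozen T M' c' w := by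
  intro M'' c'' hG' hE'
  rw [h M'' c'' hG' (hE.trans hE'), h M' c' hG hE]

theorem increase {T : Finset V} {M : Set E} {c : V → E → List E} (hG : D.Good T M c) {t : V}
    (ht : t ∈ T) (hinf : D.InfV t) :
    ∃ M' c', D.Good T M' c' ∧ D.Ext T M c M' c' ∧ ∃ a ∈ D.inn M' t, a ∉ D.inn M t := by
  classical
  by_contra hcon
  have hfroz : D.Frozen T M c t := by
    intro M' c' hG' hE'
    refine Subset.antisymm ?_ (inn_mono hE'.sub t)
    intro a ha
    by_contra h1
    exact hcon ⟨M', c', hG', hE', a, ha, h1⟩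
  -- maximal number of frozen vertices
  have hex : ∃ k : ℕ, (∃ M' c', D.Good T M' c' ∧ D.Ext T M c M' c' ∧
      (T.filter (D.Frozen T M' c')).card = k) ∧
      ∀ M' c', D.Good T M' c' → D.Ext T M c M' c' → (T.filter (D.Frozen T M' c')).card ≤ k := by
    set P : ℕ → Prop := fun k => ∃ M' c', D.Good T M' c' ∧ D.Ext T M c M' c' ∧
      (T.filter (D.Frozen T M' c')).card = k with hP
    have h0 : P (T.filter (D.Frozen T M c)).card := ⟨M, c, hG, Ext.refl T M c, rfl⟩
    have hb : ∀ k, P k → k ≤ T.card := by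
      rintro k ⟨M', c', -, -, rfl⟩
      exact Finset.card_filter_le _ _
    refine ⟨Nat.findGreatest P T.card, Nat.findGreatest_spec (hb _ h0) h0, ?_⟩
    intro M' c' h1 h2
    exact Nat.le_findGreatest (Finset.card_filter_le _ _) ⟨M', c', h1, h2, rfl⟩
  obtain ⟨k, ⟨M1, c1, hG1, hE1, hk⟩, hmax⟩ := hex
  set I : Finset V := T.filter (D.Frozen T M1 c1) with hIdef
  have hIT : I ⊆ T := Finset.filter_subset _ _
  have htI : t ∈ I := by
    rw [hIdef, Finset.mem_filter]
    exact ⟨ht, hfroz.ext hG1 hE1⟩
  have hstable : ∀ M2 c2, D.Good T M2 c2 → D.Ext T M1 c1 M2 c2 →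
      T.filter (D.Frozen T M2 c2) = I := by
    intro M2 c2 hG2 hE2
    symm
    refine Finset.eq_of_subset_of_card_le ?_ ?_
    · intro w hw
      rw [hIdef, Finset.mem_filter] at hw
      rw [Finset.mem_filter]
      exact ⟨hw.1, hw.2.ext hG2 hE2⟩
    · rw [hk]
      exact hmax M2 c2 hG2 (hE1.trans hE2)
  -- the finite set of marked edges at I
  have hUfin : (⋃ w ∈ I, ⋃ a ∈ D.inn M1 w, {e | e ∈ c1 w a} : Set E).Finite := by
    refine Set.Finite.biUnion (Finset.finite_toSet I) ?_
    intro w hw
    refine Set.Finite.biUnion (hG1.fin w (hIT hw)) ?_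
    intro a _
    exact List.finite_toSet _
  set n : ℕ := (⋃ w ∈ I, ⋃ a ∈ D.inn M1 w, {e | e ∈ c1 w a} : Set E).ncard with hn
  have grow : ∀ w ∈ T, w ∉ I → ∀ k : ℕ, ∀ M2 c2, D.Good T M2 c2 → D.Ext T M1 c1 M2 c2 →
      ∃ M3 c3, D.Good T M3 c3 ∧ D.Ext T M2 c2 M3 c3 ∧ (k : ℕ∞) ≤ (D.inn M3 w).encard := by
    intro w hwT hwI k
    induction k with
    | zero =>
      intro M2 c2 hG2 _
      exact ⟨M2, c2, hG2, Ext.refl T M2 c2, by simp⟩
    | succ k ih =>
      intro M2 c2 hG2 hE2
      obtain ⟨M3, c3, hG3, hE3, hk3⟩ := ih M2 c2 hG2 hE2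
      have hnf : ¬ D.Frozen T M3 c3 w := by
        intro hf
        have h1 : w ∈ T.filter (D.Frozen T M3 c3) := by
          rw [Finset.mem_filter]; exact ⟨hwT, hf⟩
        rw [hstable M3 c3 hG3 (hE2.trans hE3)] at h1
        exact hwI h1
      unfold Frozen at hnf
      push Not at hnf
      obtain ⟨M4, c4, hG4, hE4, hne⟩ := hnf
      refine ⟨M4, c4, hG4, hE3.trans hE4, ?_⟩
      have hss : D.inn M3 w ⊂ D.inn M4 w := by
        refine LE.le.ssubset_of_ne (inn_mono hE4.sub w) (fun h => hne h.symm)
      have h1 := (hG3.fin w hwT).encard_lt_encard hss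
      have h2 := Order.add_one_le_of_lt h1
      have h3 : (k : ℕ∞) + 1 ≤ (D.inn M3 w).encard + 1 := by gcongr
      exact_mod_cast h3.trans h2
  have growall : ∀ A : Finset V, A ⊆ T \ I → ∃ M3 c3, D.Good T M3 c3 ∧ D.Ext T M1 c1 M3 c3 ∧
      ∀ w ∈ A, (n : ℕ∞) < (D.inn M3 w).encard := by
    intro A
    induction A using Finset.induction_on with
    | empty => intro _; exact ⟨M1, c1, hG1, Ext.refl T M1 c1, by simp⟩
    | insert x A hx ih =>
      intro hA
      obtain ⟨M2, c2, hG2, hE2, h2⟩ := ih (fun y hy => hA (Finset.mem_insert_of_mem hy))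
      have hxTI := Finset.mem_sdiff.1 (hA (Finset.mem_insert_self x A))
      obtain ⟨M3, c3, hG3, hE3, h3⟩ := grow x hxTI.1 hxTI.2 (n + 1) M2 c2 hG2 hE2
      refine ⟨M3, c3, hG3, hE2.trans hE3, ?_⟩
      intro w hw
      rcases Finset.mem_insert.1 hw with hw | hw
      · subst hw
        refine lt_of_lt_of_le ?_ h3
        exact_mod_cast Nat.lt_succ_self n
      · exact lt_of_lt_of_le (h2 w hw) (encard_le_encard (inn_mono hE3.sub w))
  obtain ⟨M3, c3, hG3, hE3, h3⟩ := growall (T \ I) subset_rfl
  have hIfroz : ∀ w ∈ I, D.Frozen T M1 c1 w := by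
    intro w hw
    rw [hIdef, Finset.mem_filter] at hw
    exact hw.2
  have hU3 : (⋃ w ∈ I, ⋃ a ∈ D.inn M3 w, {e | e ∈ c3 w a} : Set E).encard ≤ n := by
    have heq : (⋃ w ∈ I, ⋃ a ∈ D.inn M3 w, {e | e ∈ c3 w a} : Set E) ⊆
        (⋃ w ∈ I, ⋃ a ∈ D.inn M1 w, {e | e ∈ c1 w a} : Set E) := by
      intro e he
      simp only [mem_iUnion] at he ⊢
      obtain ⟨w, hw, a, ha, he⟩ := he
      have h1 : D.inn M3 w = D.inn M1 w := hIfroz w hw M3 c3 hG3 hE3
      rw [h1] at ha
      have h2 := hE3.mark w (hIT hw) a ha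
      refine ⟨w, hw, a, ha, ?_⟩
      have he' : e ∈ c3 w a := he
      rw [h2] at he'
      exact he'
    refine (encard_le_encard heq).trans ?_
    rw [hn, hUfin.cast_ncard_eq]
  obtain ⟨M4, c4, hG4, hE4, w, hw, a, ha1, ha2⟩ := core hG3 I hIT n hU3
    (fun w hwT hwI => h3 w (Finset.mem_sdiff.2 ⟨hwT, hwI⟩)) htI hinf
  have h5 := (hIfroz w hw).ext hG3 hE3 M4 c4 hG4 hE4
  rw [h5] at ha1
  exact ha2 ha1

end RootedDigraph

end Pool.Agent.H38.Flame
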