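import Pool.Agent.H38.Flame.Core

open Set

namespace Pool.Agent.H38.Flame

universe u w

namespace RootedDigraph

variable {V : Type u} {E : Type w} {D : RootedDigraph V E}

theorem increase_all {T : Finset V} {M : Set E} {c : V → E → List E} (hG : D.Good T M c)
    (A : Finset V) (hA : A ⊆ T) :
    ∃ M' c', D.Good T M' c' ∧ D.Ext T M c M' c' ∧
      ∀ t ∈ A, D.InfV t → ∃ a ∈ D.inn M' t, a ∉ D.inn M t := by
  classical
  induction A using Finset.induction_on with
  | empty => exact ⟨M, c, hG, Ext.refl T M c, by simp⟩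
  | insert x A hx ih =>
    obtain ⟨M1, c1, hG1, hE1, h1⟩ := ih (fun y hy => hA (Finset.mem_insert_of_mem hy))
    by_cases hinf : D.InfV x
    · obtain ⟨M2, c2, hG2, hE2, a, ha1, ha2⟩ := increase hG1 (hA (Finset.mem_insert_self x A)) hinf
      refine ⟨M2, c2, hG2, hE1.trans hE2, ?_⟩
      intro t ht hti
      rcases Finset.mem_insert.1 ht with ht | ht
      · subst ht
        exact ⟨a, ha1, fun h => ha2 (inn_mono hE1.sub t h)⟩
      · obtain ⟨b, hb1, hb2⟩ := h1 t ht hti
        exact ⟨b, inn_mono hE2.sub t hb1, hb2⟩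
    · refine ⟨M1, c1, hG1, hE1, ?_⟩
      intro t ht hti
      rcases Finset.mem_insert.1 ht with ht | ht
      · subst ht; exact absurd hti hinf
      · exact h1 t ht hti

/-- a stage of the construction -/
structure Stage (D : RootedDigraph V E) where
  T : Finset V
  M : Set E
  c : V → E → List E
  good : D.Good T M c

theorem stage_step (s : D.Stage) : ∃ s' : D.Stage, s.T ⊆ s'.T ∧ D.Ext s.T s.M s.c s'.M s'.c ∧
    (∀ t ∈ s.T, D.InfV t → ∃ a ∈ D.inn s'.M t, a ∉ D.inn s.M t) ∧
    ∀ e ∈ s'.M \ s.M, D.tgt e ∈ s'.T := by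
  classical
  obtain ⟨M', c', hG, hE, hinc⟩ := increase_all s.good s.T subset_rfl
  set T' : Finset V := s.T ∪ hE.fin.toFinset.image D.tgt with hT'
  have hch : ∀ v, ∃ cv, D.Link M' v cv := fun v => hG.flame v
  choose cv hcv using hch
  refine ⟨⟨T', M', fun v => if v ∈ s.T then c' v else cv v, ⟨hG.flame, ?_, ?_, ?_⟩⟩, ?_,
    ⟨hE.sub, hE.fin, hE.small, ?_⟩, hinc, ?_⟩
  · intro w hw
    rw [hT', Finset.mem_union] at hw
    rcases hw with hw | hw
    · exact hG.fin w hw
    · rw [Finset.mem_image] at hw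
      obtain ⟨e, he, rfl⟩ := hw
      exact hE.small e (by simpa using he)
  · intro w hw
    rw [hT', Finset.mem_union] at hw
    rcases hw with hw | hw
    · exact hG.ne w hw
    · rw [Finset.mem_image] at hw
      obtain ⟨e, he, rfl⟩ := hw
      exact D.no_in e
  · intro w _
    by_cases h1 : w ∈ s.T
    · simp only [h1, if_true]
      exact hG.link w h1
    · simp only [h1, if_false]
      exact hcv w
  · exact Finset.subset_union_left
  · intro w hw a ha
    simp only [hw, if_true]
    exact hE.mark w hw a ha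
  · intro e he
    change D.tgt e ∈ T'
    rw [hT', Finset.mem_union]
    right
    rw [Finset.mem_image]
    exact ⟨e, by simpa using he, rfl⟩

theorem jump {M0 : Set E} (h0 : ∀ v, D.FlameAt M0 v) {t0 : V} (ht0 : D.InfV t0)
    (hfin0 : (D.inn M0 t0).Finite) :
    ∃ M, M0 ⊆ M ∧ (∀ v, D.FlameAt M v) ∧ (D.inn M t0).Infinite ∧
      ∀ v, D.InfV v → D.inn M v = D.inn M0 v ∨ ((D.inn M0 v).Finite ∧ (D.inn M v).Infinite) := by
  classical
  have hch : ∀ v, ∃ cv, D.Link M0 v cv := fun v => h0 v
  choose c0 hc0 using hch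
  let s0 : D.Stage := ⟨{t0}, M0, c0, ⟨h0, by
    intro w hw
    rw [Finset.mem_singleton] at hw
    subst hw; exact hfin0, by
    intro w hw
    rw [Finset.mem_singleton] at hw
    subst hw; exact ht0.1, fun w _ => hc0 w⟩⟩
  choose nx hn1 hn2 hn3 hn4 using stage_step (D := D)
  let s : ℕ → D.Stage := fun n => Nat.rec s0 (fun _ x => nx x) n
  have hs0 : s 0 = s0 := rfl
  have hss : ∀ n, s (n + 1) = nx (s n) := fun n => rfl
  have hTm : Monotone (fun n => (s n).T) := by
    refine monotone_nat_of_le_succ ?_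
    intro n
    change (s n).T ⊆ (s (n + 1)).T
    rw [hss]; exact hn1 (s n)
  have hMm : Monotone (fun n => (s n).M) := by
    refine monotone_nat_of_le_succ ?_
    intro n
    change (s n).M ⊆ (s (n + 1)).M
    rw [hss]; exact (hn2 (s n)).sub
  have hmark : ∀ m n, m ≤ n → ∀ w ∈ (s m).T, ∀ a ∈ D.inn (s m).M w, (s n).c w a = (s m).c w a := by
    intro m n hmn
    induction n, hmn using Nat.le_induction with
    | base => intro w _ a _; rfl
    | succ n hmn ih =>
      intro w hw a ha
      rw [hss, (hn2 (s n)).mark w (hTm hmn hw) a (inn_mono (hMm hmn) w ha)]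
      exact ih w hw a ha
  set M : Set E := ⋃ n, (s n).M with hM
  have hsM : ∀ n, (s n).M ⊆ M := fun n => subset_iUnion (fun n => (s n).M) n
  have hheads : ∀ n, ∀ e ∈ (s n).M, e ∉ M0 → D.tgt e ∈ (s n).T := by
    intro n
    induction n with
    | zero => intro e he he0; exact absurd he he0
    | succ n ih =>
      intro e he he0
      by_cases h1 : e ∈ (s n).M
      · exact hTm (Nat.le_succ n) (ih e h1 he0)
      · rw [hss] at he ⊢
        exact hn4 (s n) e ⟨he, h1⟩
  have hin : ∀ v a, a ∈ D.inn M v → ∃ n, a ∈ D.inn (s n).M v := by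
    rintro v a ⟨h1, h2⟩
    obtain ⟨n, hn⟩ := mem_iUnion.1 h1
    exact ⟨n, hn, h2⟩
  have hflame : ∀ v, D.FlameAt M v := by
    intro v
    by_cases hv : ∃ n, v ∈ (s n).T
    · obtain ⟨n0, hn0⟩ := hv
      have hidx : ∀ a, ∃ n, n0 ≤ n ∧ (a ∈ D.inn M v → a ∈ D.inn (s n).M v) := by
        intro a
        by_cases ha : a ∈ D.inn M v
        · obtain ⟨n, hn⟩ := hin v a ha
          exact ⟨max n0 n, le_max_left _ _, fun _ => inn_mono (hMm (le_max_right _ _)) v hn⟩
        · exact ⟨n0, le_rfl, fun h => absurd h ha⟩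
      choose N hN1 hN2 using hidx
      refine ⟨fun a => (s (N a)).c v a, ?_, ?_⟩
      · intro a ha
        obtain ⟨h1, h2, h3⟩ := ((s (N a)).good.link v (hTm (hN1 a) hn0)).1 a (hN2 a ha)
        exact ⟨h1, fun e he => hsM _ (h2 e he), h3⟩
      · intro a ha b hb hab
        have hma := hmark (N a) (max (N a) (N b)) (le_max_left _ _) v (hTm (hN1 a) hn0) a (hN2 a ha)
        have hmb := hmark (N b) (max (N a) (N b)) (le_max_right _ _) v (hTm (hN1 b) hn0) b
          (hN2 b hb)
        change ∀ e ∈ (s (N a)).c v a, e ∉ (s (N b)).c v b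
        rw [← hma, ← hmb]
        exact ((s (max (N a) (N b))).good.link v
          (hTm ((hN1 a).trans (le_max_left _ _)) hn0)).2 a
          (inn_mono (hMm (le_max_left _ _)) v (hN2 a ha)) b
          (inn_mono (hMm (le_max_right _ _)) v (hN2 b hb)) hab
    · push Not at hv
      refine (h0 v).mono (hsM 0) ?_
      refine Subset.antisymm ?_ (inn_mono (hsM 0) v)
      intro a ha
      obtain ⟨n, hn⟩ := hin v a ha
      by_contra h1
      have h2 : a ∉ M0 := fun h => h1 ⟨h, ha.2⟩
      have h3 := hheads n a hn.1 h2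
      rw [hn.2] at h3
      exact hv n h3
  have hinfT : ∀ n, ∀ v ∈ (s n).T, D.InfV v → (D.inn M v).Infinite := by
    intro n v hv hvi hfin
    have h1 : ∃ m, D.inn M v ⊆ (s m).M := by
      have h2 : D.inn M v ⊆ ⋃ m, (s m).M := fun a ha => ha.1
      have h3 : Directed (· ⊆ ·) (fun m => (s m).M) := hMm.directed_le
      obtain ⟨m, hm⟩ := h3.exists_mem_subset_of_finset_subset_biUnion (s := hfin.toFinset)
        (by simpa using h2)
      exact ⟨m, by simpa using hm⟩
    obtain ⟨m, hm⟩ := h1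
    obtain ⟨a, ha1, ha2⟩ := hn3 (s (max m n)) v (hTm (le_max_right m n) hv) hvi
    rw [← hss] at ha1
    have h4 : a ∈ D.inn M v := inn_mono (hsM (max m n + 1)) v ha1
    exact ha2 ⟨hMm (le_max_left m n) (hm h4), ha1.2⟩
  refine ⟨M, hsM 0, hflame, ?_, ?_⟩
  · refine hinfT 0 t0 ?_ ht0
    rw [hs0]; simp [s0]
  · intro v hvi
    by_cases hv : ∃ n, v ∈ (s n).T
    · obtain ⟨n, hn⟩ := hv
      right
      refine ⟨?_, hinfT n v hn hvi⟩
      exact ((s n).good.fin v hn).subset (inn_mono (hMm (Nat.zero_le n)) v)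
    · push Not at hv
      left
      refine Subset.antisymm ?_ (inn_mono (hsM 0) v)
      intro a ha
      obtain ⟨n, hn⟩ := hin v a ha
      by_contra h1
      have h2 : a ∉ M0 := fun h => h1 ⟨h, ha.2⟩
      have h3 := hheads n a hn.1 h2
      rw [hn.2] at h3
      exact hv n h3

end RootedDigraph

end Pool.Agent.H38.Flame
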