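import Pool.Agent.H38.Flame.Menger

open Set

namespace Pool.Agent.H38.Flame

universe u w

namespace RootedDigraph

variable {V : Type u} {E : Type w} {D : RootedDigraph V E}

/-- `c` assigns to every edge `a` of `L` entering `v` a walk from the root to
`v` inside `L` through `a`, and these walks are pairwise edge-disjoint. -/
def Link (D : RootedDigraph V E) (L : Set E) (v : V) (c : E → List E) : Prop :=
  (∀ a ∈ D.inn L v, D.IsWalk D.root (c a) v ∧ (∀ e ∈ c a, e ∈ L) ∧ a ∈ c a) ∧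
    (∀ a ∈ D.inn L v, ∀ b ∈ D.inn L v, a ≠ b → ∀ e ∈ c a, e ∉ c b)

theorem Link.mono {L L' : Set E} {v : V} {c : E → List E} (h : D.Link L v c) (hL : L ⊆ L')
    (hi : D.inn L' v = D.inn L v) : D.Link L' v c := by
  refine ⟨fun a ha => ?_, fun a ha b hb => ?_⟩
  · rw [hi] at ha
    obtain ⟨h1, h2, h3⟩ := h.1 a ha
    exact ⟨h1, fun e he => hL (h2 e he), h3⟩
  · rw [hi] at ha hb
    exact h.2 a ha b hb

theorem ne_root_of_mem_inn {L : Set E} {v : V} {a : E} (ha : a ∈ D.inn L v) : v ≠ D.root := by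
  rw [← ha.2]; exact D.no_in a

theorem exists_link_of_family {L : Set E} {v : V} {Q : Set (Set E)}
    (hQ : D.IsPathFamily L v Q) (hc : ∀ e ∈ L, D.tgt e = v → e ∈ ⋃₀ Q) :
    ∃ c, D.Link L v c := by
  classical
  have h1 : ∀ a, ∃ l : List E, a ∈ D.inn L v → ({e | e ∈ l} ∈ Q ∧ D.IsWalk D.root l v ∧
      (D.root :: l.map D.tgt).Nodup ∧ (∀ e ∈ l, e ∈ L) ∧ a ∈ l) := by
    intro a
    by_cases ha : a ∈ D.inn L v
    · obtain ⟨P, hP, haP⟩ := hc a ha.1 ha.2
      obtain ⟨⟨l, h1, h2, h3⟩, h4⟩ := hQ.1 P hP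
      subst h3
      exact ⟨l, fun _ => ⟨hP, h1, h2, fun e he => h4 he, haP⟩⟩
    · exact ⟨[], fun h => absurd h ha⟩
  choose c hc using h1
  refine ⟨c, fun a ha => ⟨(hc a ha).2.1, (hc a ha).2.2.2.1, (hc a ha).2.2.2.2⟩, ?_⟩
  intro a ha b hb hab e hea heb
  obtain ⟨ha1, ha2, ha3, ha4, ha5⟩ := hc a ha
  obtain ⟨hb1, hb2, hb3, hb4, hb5⟩ := hc b hb
  have hne : ({e | e ∈ c a} : Set E) ≠ {e | e ∈ c b} := by
    intro heq
    have hb6 : b ∈ ({e | e ∈ c a} : Set E) := by rw [heq]; exact hb5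
    exact hab (tgt_inj_of_nodup ha3 ha5 hb6 (by rw [ha.2, hb.2]))
  exact Set.disjoint_left.1 (hQ.2 ha1 hb1 hne) hea heb

theorem Link.exists_family {L : Set E} {v : V} {c : E → List E} (h : D.Link L v c) :
    ∃ Q, D.IsPathFamily L v Q ∧ (∀ e ∈ L, D.tgt e = v → e ∈ ⋃₀ Q) ∧
      ((D.inn L v).Infinite → Q.Infinite) := by
  classical
  have h1 : ∀ a, ∃ m : List E, a ∈ D.inn L v → (D.IsWalk D.root m v ∧
      (D.root :: m.map D.tgt).Nodup ∧ (∀ e ∈ m, e ∈ c a) ∧ a ∈ m) := by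
    intro a
    by_cases ha : a ∈ D.inn L v
    · obtain ⟨h2, h3, h4⟩ := h.1 a ha
      obtain ⟨m, hm1, hm2, hm3⟩ := h2.shorten
      refine ⟨m, fun _ => ⟨hm1, hm2, hm3, ?_⟩⟩
      have hv := ne_root_of_mem_inn ha
      obtain ⟨b, hb1, hb2, hb3⟩ := hm1.enter (X := {v}) (fun h => hv h.symm) rfl
      have hbi : b ∈ D.inn L v := ⟨h3 b (hm3 b hb1), hb3⟩
      by_cases hab : a = b
      · rw [hab]; exact hb1
      · exact absurd (h.1 b hbi).2.2 (h.2 a ha b hbi hab b (hm3 b hb1))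
    · exact ⟨[], fun h => absurd h ha⟩
  choose p hp using h1
  refine ⟨(fun a => {e | e ∈ p a}) '' D.inn L v, ⟨?_, ?_⟩, ?_, ?_⟩
  · rintro _ ⟨a, ha, rfl⟩
    obtain ⟨h2, h3, h4, h5⟩ := hp a ha
    exact ⟨⟨p a, h2, h3, rfl⟩, fun e he => (h.1 a ha).2.1 e (h4 e he)⟩
  · rintro _ ⟨a, ha, rfl⟩ _ ⟨b, hb, rfl⟩ hab
    have hne : a ≠ b := fun h => hab (by rw [h])
    refine Set.disjoint_left.2 ?_
    intro e he he'
    exact h.2 a ha b hb hne e ((hp a ha).2.2.1 e he) ((hp b hb).2.2.1 e he')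
  · intro e he hev
    exact ⟨_, ⟨e, ⟨he, hev⟩, rfl⟩, (hp e ⟨he, hev⟩).2.2.2⟩
  · intro hinf
    refine hinf.image ?_
    intro a ha b hb hab
    have hb' : b ∈ ({e | e ∈ p a} : Set E) := by
      have : b ∈ ({e | e ∈ p b} : Set E) := (hp b hb).2.2.2
      have hab' : ({e | e ∈ p a} : Set E) = {e | e ∈ p b} := hab
      rw [hab']
      exact this
    exact tgt_inj_of_nodup (hp a ha).2.1 (hp a ha).2.2.2 hb' (by rw [ha.2, hb.2])

/-- flame condition at one vertex -/
def FlameAt (D : RootedDigraph V E) (L : Set E) (v : V) : Prop := ∃ c, D.Link L v c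

theorem flameAt_root (L : Set E) : D.FlameAt L D.root :=
  ⟨fun _ => [], fun _ ha => absurd rfl (ne_root_of_mem_inn ha),
    fun _ ha => absurd rfl (ne_root_of_mem_inn ha)⟩

theorem isFlame_iff {L : Set E} : D.IsFlame L ↔ ∀ v, D.FlameAt L v := by
  constructor
  · intro h v
    by_cases hv : v = D.root
    · subst hv; exact flameAt_root L
    · obtain ⟨Q, h1, h2⟩ := h v hv
      exact exists_link_of_family h1 h2
  · intro h v _
    obtain ⟨c, hc⟩ := h v
    obtain ⟨Q, h1, h2, -⟩ := hc.exists_family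
    exact ⟨Q, h1, h2⟩

theorem FlameAt.mono {L L' : Set E} {v : V} (h : D.FlameAt L v) (hL : L ⊆ L')
    (hi : D.inn L' v = D.inn L v) : D.FlameAt L' v := by
  obtain ⟨c, hc⟩ := h
  exact ⟨c, hc.mono hL hi⟩

theorem FlameAt.le_din {L : Set E} {v : V} (h : D.FlameAt L v) {X : Set V} (hv : v ∈ X)
    (hr : D.root ∉ X) : (D.inn L v).encard ≤ (D.din L X).encard := by
  classical
  obtain ⟨c, hc⟩ := h
  have h1 : ∀ a, ∃ e : E, a ∈ D.inn L v → (e ∈ c a ∧ e ∈ D.din L X) := by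
    intro a
    by_cases ha : a ∈ D.inn L v
    · obtain ⟨e, he1, he2⟩ := (hc.1 a ha).1.enter hr hv
      exact ⟨e, fun _ => ⟨he1, (hc.1 a ha).2.1 e he1, he2⟩⟩
    · exact ⟨a, fun h => absurd h ha⟩
  choose g hg using h1
  refine encard_le_encard_of_injOn (f := g) (fun a ha => (hg a ha).2) ?_
  intro a ha b hb hab
  by_contra hne
  exact hc.2 a ha b hb hne (g a) (hg a ha).1 (by rw [hab]; exact (hg b hb).1)

theorem flameAt_of_cut {L : Set E} {v : V} (hfin : (D.inn L v).Finite)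
    (h : ∀ X : Set V, v ∈ X → D.root ∉ X → (D.inn L v).encard ≤ (D.din L X).encard) :
    D.FlameAt L v := by
  classical
  by_cases hv : v = D.root
  · subst hv; exact flameAt_root L
  have hk : (D.inn L v).encard = ((D.inn L v).ncard : ℕ∞) := hfin.cast_ncard_eq.symm
  rw [hk] at h
  obtain ⟨p, hp1, hp2⟩ := menger L hv _ h
  have h1 : ∀ i, ∃ e ∈ p i, e ∈ D.inn L v := by
    intro i
    obtain ⟨e, he1, he2, he3⟩ := (hp1 i).1.enter (X := {v}) (fun h => hv h.symm) rfl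
    exact ⟨e, he1, (hp1 i).2 e he1, he3⟩
  choose g hg1 hg2 using h1
  have hginj : Function.Injective g := by
    intro i j hij
    by_contra hne
    exact hp2 i j hne (g i) (hg1 i) (by rw [hij]; exact hg1 j)
  have hrange : Set.range g = D.inn L v := by
    refine Set.Finite.eq_of_subset_of_encard_le (Set.toFinite _) ?_ ?_
    · rintro _ ⟨i, rfl⟩; exact hg2 i
    · rw [← image_univ, hginj.injOn.encard_image, hk]
      simp
  have h2 : ∀ a, ∃ l : List E, a ∈ D.inn L v → ∃ i, g i = a ∧ l = p i := by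
    intro a
    by_cases ha : a ∈ D.inn L v
    · have : a ∈ Set.range g := by rw [hrange]; exact ha
      obtain ⟨i, hi⟩ := this
      exact ⟨p i, fun _ => ⟨i, hi, rfl⟩⟩
    · exact ⟨[], fun h => absurd h ha⟩
  choose c hc using h2
  refine ⟨c, ?_, ?_⟩
  · intro a ha
    obtain ⟨i, hi1, hi2⟩ := hc a ha
    rw [hi2]
    exact ⟨(hp1 i).1, (hp1 i).2, by rw [← hi1]; exact hg1 i⟩
  · intro a ha b hb hab
    obtain ⟨i, hi1, hi2⟩ := hc a ha
    obtain ⟨j, hj1, hj2⟩ := hc b hb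
    rw [hi2, hj2]
    refine hp2 i j ?_
    intro hij
    exact hab (by rw [← hi1, ← hj1, hij])

/-- If a new edge cannot be added to a flame, there is a tight set around it. -/
theorem exists_tight {L : Set E} (hL : ∀ v, D.FlameAt L v) {e : E} (he : e ∉ L)
    (hfin : (D.inn L (D.tgt e)).Finite) (hno : ¬ ∀ v, D.FlameAt (insert e L) v) :
    ∃ Y : Set V, D.tgt e ∈ Y ∧ D.src e ∈ Y ∧ D.root ∉ Y ∧
      (D.din L Y).encard ≤ (D.inn L (D.tgt e)).encard := by
  classical
  push Not at hno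
  obtain ⟨v, hv⟩ := hno
  have hve : v = D.tgt e := by
    by_contra hne
    refine hv ((hL v).mono (subset_insert e L) ?_)
    ext a
    constructor
    · rintro ⟨h1, h2⟩
      rcases h1 with h1 | h1
      · subst h1; exact absurd h2.symm hne
      · exact ⟨h1, h2⟩
    · rintro ⟨h1, h2⟩; exact ⟨Or.inr h1, h2⟩
  subst hve
  have hins : D.inn (insert e L) (D.tgt e) = insert e (D.inn L (D.tgt e)) := by
    ext a
    constructor
    · rintro ⟨h1 | h1, h2⟩
      · exact Or.inl h1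
      · exact Or.inr ⟨h1, h2⟩
    · rintro (h1 | ⟨h1, h2⟩)
      · subst h1; exact ⟨Or.inl rfl, rfl⟩
      · exact ⟨Or.inr h1, h2⟩
  have hins' : (D.inn (insert e L) (D.tgt e)).encard = (D.inn L (D.tgt e)).encard + 1 := by
    rw [hins, encard_insert_of_notMem (fun h => he h.1)]
  have h1 : ¬ ∀ X : Set V, D.tgt e ∈ X → D.root ∉ X →
      (D.inn (insert e L) (D.tgt e)).encard ≤ (D.din (insert e L) X).encard := by
    intro h2
    refine hv (flameAt_of_cut ?_ h2)
    rw [hins]; exact hfin.insert e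
  push Not at h1
  obtain ⟨Y, hY1, hY2, hY3⟩ := h1
  rw [hins'] at hY3
  have hfin' : (D.inn L (D.tgt e)).encard ≠ ⊤ := hfin.encard_lt_top.ne
  by_cases hs : D.src e ∈ Y
  · refine ⟨Y, hY1, hs, hY2, ?_⟩
    have h4 : (D.din L Y).encard ≤ (D.din (insert e L) Y).encard :=
      encard_le_encard (din_mono (subset_insert e L) Y)
    exact Order.lt_add_one_iff_of_not_isMax (by simpa using hfin') |>.1 (lt_of_le_of_lt h4 hY3)
  · exfalso
    have h4 : insert e (D.din L Y) ⊆ D.din (insert e L) Y := by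
      rintro a (h5 | h5)
      · subst h5; exact ⟨Or.inl rfl, hs, hY1⟩
      · exact din_mono (subset_insert e L) Y h5
    have h5 := encard_le_encard h4
    rw [encard_insert_of_notMem (fun h => he h.1)] at h5
    have h6 := (hL (D.tgt e)).le_din hY1 hY2
    have h7 : (D.inn L (D.tgt e)).encard + 1 ≤ (D.din L Y).encard + 1 := by gcongr
    exact absurd hY3 (not_lt.2 (h7.trans h5))

theorem uncross {L : Set E} {x : V} (hL : D.FlameAt L x) {X Y : Set V} (hX : x ∈ X) (hY : x ∈ Y)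
    (hrX : D.root ∉ X) (hfin : (D.inn L x).Finite)
    (hYt : (D.din L Y).encard ≤ (D.inn L x).encard) :
    (D.din L (X ∪ Y)).encard ≤ (D.din L X).encard := by
  have h1 := din_submod (D := D) L X Y
  have h2 : (D.inn L x).encard ≤ (D.din L (X ∩ Y)).encard :=
    hL.le_din ⟨hX, hY⟩ (fun h => hrX h.1)
  have h3 : (D.inn L x).encard ≠ ⊤ := hfin.encard_lt_top.ne
  have h4 : (D.din L (X ∪ Y)).encard + (D.inn L x).encard ≤
      (D.din L X).encard + (D.inn L x).encard :=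
    calc (D.din L (X ∪ Y)).encard + (D.inn L x).encard
        ≤ (D.din L (X ∪ Y)).encard + (D.din L (X ∩ Y)).encard := by gcongr
      _ ≤ (D.din L X).encard + (D.din L Y).encard := h1
      _ ≤ (D.din L X).encard + (D.inn L x).encard := by gcongr
  exact (ENat.add_le_add_iff_right h3).1 h4

/-- Among the supersets of `W` avoiding the root with at most as many entering
edges as `W` there is one which is minimal and inclusion-maximal. -/
theorem exists_maxmin (L : Set E) (W : Set V) (hr : D.root ∉ W) :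
    ∃ X : Set V, W ⊆ X ∧ D.root ∉ X ∧ (D.din L X).encard ≤ (D.din L W).encard ∧
      ∀ X', X ⊆ X' → D.root ∉ X' → (D.din L X').encard ≤ (D.din L X).encard → X' ⊆ X := by
  classical
  by_cases htop : (D.din L W).encard = ⊤
  · refine ⟨{x | x ≠ D.root}, ?_, ?_, ?_, ?_⟩
    · intro x hx hxr
      exact hr (by rw [← hxr]; exact hx)
    · intro h; exact h rfl
    · rw [htop]; exact le_top
    · intro X' _ hrX' _ x hx hxr
      exact hrX' (by rw [← hxr]; exact hx)
  -- minimal value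
  have hwf : ∃ X : Set V, (W ⊆ X ∧ D.root ∉ X) ∧
      ∀ X', (W ⊆ X' ∧ D.root ∉ X') → (D.din L X).encard ≤ (D.din L X').encard := by
    have hne : {n : ℕ∞ | ∃ X, (W ⊆ X ∧ D.root ∉ X) ∧ (D.din L X).encard = n}.Nonempty :=
      ⟨_, W, ⟨subset_rfl, hr⟩, rfl⟩
    obtain ⟨X, hX1, hX2⟩ := WellFounded.min_mem (wellFounded_lt (α := ℕ∞)) _ hne
    refine ⟨X, hX1, ?_⟩
    intro X' hX'
    rw [hX2]
    refine not_lt.1 (WellFounded.not_lt_min (wellFounded_lt (α := ℕ∞))
      {n : ℕ∞ | ∃ X, (W ⊆ X ∧ D.root ∉ X) ∧ (D.din L X).encard = n} ?_)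
    exact ⟨X', hX', rfl⟩
  obtain ⟨X0, hX0, hmin⟩ := hwf
  obtain ⟨k, hk⟩ : ∃ k : ℕ, (D.din L X0).encard = k := by
    have h1 := hmin W ⟨subset_rfl, hr⟩
    have h2 : (D.din L X0).encard ≠ ⊤ := fun h => htop (top_le_iff.1 (h ▸ h1))
    exact ⟨_, (ENat.natCast_toNat h2).symm⟩
  -- Zorn
  obtain ⟨X, hX0X, hX⟩ := zorn_subset_nonempty
    {X : Set V | (W ⊆ X ∧ D.root ∉ X) ∧ (D.din L X).encard ≤ k} (by
      intro c hc hchain hcne
      refine ⟨⋃₀ c, ⟨⟨?_, ?_⟩, ?_⟩, fun s hs => subset_sUnion_of_mem hs⟩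
      · obtain ⟨s, hs⟩ := hcne
        exact (hc hs).1.1.trans (subset_sUnion_of_mem hs)
      · rintro ⟨s, hs, hrs⟩
        exact (hc hs).1.2 hrs
      · by_contra hcon
        push Not at hcon
        have h1 : ((k + 1 : ℕ) : ℕ∞) ≤ (D.din L (⋃₀ c)).encard := by
          have := Order.add_one_le_of_lt hcon
          exact_mod_cast this
        obtain ⟨t, ht1, ht2⟩ := exists_subset_encard_eq h1
        have htf : t.Finite := by
          rw [← encard_lt_top_iff, ht2]; exact ENat.natCast_lt_top _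
        have h3 : ∃ s ∈ c, D.tgt '' t ⊆ s := by
          refine DirectedOn.exists_mem_subset_of_finite_of_subset_sUnion hcne hchain.directedOn
            (htf.image _) ?_
          rintro _ ⟨e, he, rfl⟩
          exact (ht1 he).2.2
        obtain ⟨s, hs, hts⟩ := h3
        have h4 : t ⊆ D.din L s := by
          intro e he
          refine ⟨(ht1 he).1, fun h => (ht1 he).2.1 ⟨s, hs, h⟩, hts ⟨e, he, rfl⟩⟩
        have h5 := (encard_le_encard h4).trans (hc hs).2
        rw [ht2] at h5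
        have h6 : k + 1 ≤ k := by exact_mod_cast h5
        omega) X0 ⟨hX0, hk.le⟩
  have hXk : (D.din L X).encard = k := le_antisymm hX.prop.2 (hk ▸ hmin X hX.prop.1)
  refine ⟨X, hX.prop.1.1, hX.prop.1.2, ?_, ?_⟩
  · rw [hXk, ← hk]; exact hmin W ⟨subset_rfl, hr⟩
  · intro X' h1 h2 h3
    exact hX.le_of_ge ⟨⟨hX.prop.1.1.trans h1, h2⟩, h3.trans hX.prop.2⟩ h1

end RootedDigraph

end Pool.Agent.H38.Flame
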