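import Pool.Agent.H38.Flame.Basic

open Set

namespace Pool.Agent.H38.Flame

universe u w

namespace RootedDigraph

variable {V : Type u} {E : Type w} {D : RootedDigraph V E}

/-- Hall type neighbourhoods used in the proof of Menger's theorem. -/
noncomputable def nb (D : RootedDigraph V E) (E0 : Finset E) (v : V) (k : ℕ) :
    ({x // x ∈ E0} ⊕ Fin k) → Finset ({x // x ∈ E0} ⊕ Fin k) := by
  classical
  exact fun x => match x with
  | Sum.inl e => Finset.univ.filter (fun y => y = Sum.inl e ∨
      (∃ f : {x // x ∈ E0}, y = Sum.inl f ∧ D.src f.1 = D.tgt e.1) ∨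
      (D.tgt e.1 = v ∧ ∃ i : Fin k, y = Sum.inr i))
  | Sum.inr _ => Finset.univ.filter (fun y => ∃ f : {x // x ∈ E0}, y = Sum.inl f ∧
      D.src f.1 = D.root)

theorem mem_nb_inl {E0 : Finset E} {v : V} {k : ℕ} {e : {x // x ∈ E0}}
    {y : {x // x ∈ E0} ⊕ Fin k} : y ∈ D.nb E0 v k (Sum.inl e) ↔ (y = Sum.inl e ∨
      (∃ f : {x // x ∈ E0}, y = Sum.inl f ∧ D.src f.1 = D.tgt e.1) ∨
      (D.tgt e.1 = v ∧ ∃ i : Fin k, y = Sum.inr i)) := by
  classical
  unfold nb
  simp

theorem mem_nb_inr {E0 : Finset E} {v : V} {k : ℕ} {i : Fin k}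
    {y : {x // x ∈ E0} ⊕ Fin k} : y ∈ D.nb E0 v k (Sum.inr i) ↔
      ∃ f : {x // x ∈ E0}, y = Sum.inl f ∧ D.src f.1 = D.root := by
  classical
  unfold nb
  simp

theorem hall_cond (E0 : Finset E) {v : V} (hv : v ≠ D.root) (k : ℕ)
    (h : ∀ X : Set V, v ∈ X → D.root ∉ X → (k : ℕ∞) ≤ (D.din (E0 : Set E) X).encard)
    [DecidableEq ({x // x ∈ E0} ⊕ Fin k)]
    (s : Finset ({x // x ∈ E0} ⊕ Fin k)) : s.card ≤ (s.biUnion (D.nb E0 v k)).card := by
  classical
  have hself : ∀ e, Sum.inl e ∈ s → Sum.inl e ∈ s.biUnion (D.nb E0 v k) := by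
    intro e he
    rw [Finset.mem_biUnion]
    exact ⟨_, he, mem_nb_inl.2 (Or.inl rfl)⟩
  by_cases hR : ∃ i, Sum.inr i ∈ s
  · obtain ⟨i, hi⟩ := hR
    by_cases hvs : ∃ e, Sum.inl e ∈ s ∧ D.tgt e.1 = v
    · obtain ⟨e, he, hev⟩ := hvs
      refine Finset.card_le_card ?_
      intro x hx
      rcases x with f | j
      · exact hself f hx
      · rw [Finset.mem_biUnion]
        exact ⟨_, he, mem_nb_inl.2 (Or.inr (Or.inr ⟨hev, j, rfl⟩))⟩
    · set X : Set V := {x | x ≠ D.root ∧ ∀ e, Sum.inl e ∈ s → D.tgt e.1 ≠ x} with hX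
      have hvX : v ∈ X := ⟨hv, fun e he hev => hvs ⟨e, he, hev⟩⟩
      have hrX : D.root ∉ X := fun h => h.1 rfl
      have hk := h X hvX hrX
      set sL := s.filter (fun x => ∃ f, x = Sum.inl f) with hsL
      set sR := s.filter (fun x => ¬ ∃ f, x = Sum.inl f) with hsR
      have hcard : s.card = sL.card + sR.card := by
        rw [hsL, hsR, Finset.card_filter_add_card_filter_not]
      have hRk : sR.card ≤ k := by
        have : sR ⊆ Finset.univ.image (fun j : Fin k => (Sum.inr j : {x // x ∈ E0} ⊕ Fin k)) := by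
          intro x hx
          rw [hsR, Finset.mem_filter] at hx
          rcases x with f | j
          · exact absurd ⟨f, rfl⟩ hx.2
          · simp
        calc sR.card ≤ _ := Finset.card_le_card this
          _ ≤ (Finset.univ : Finset (Fin k)).card := Finset.card_image_le
          _ = k := by simp
      set W : Finset ({x // x ∈ E0} ⊕ Fin k) := Finset.univ.filter
        (fun y => ∃ f : {x // x ∈ E0}, y = Sum.inl f ∧ f.1 ∈ D.din (E0 : Set E) X) with hW
      have hWk : k ≤ W.card := by
        have h1 : (D.din (E0 : Set E) X).encard ≤ (W : Set ({x // x ∈ E0} ⊕ Fin k)).encard := by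
          refine encard_le_encard_of_injOn (f := fun e => if he : e ∈ E0 then
            (Sum.inl ⟨e, he⟩ : {x // x ∈ E0} ⊕ Fin k) else Sum.inr i) ?_ ?_
          · intro e he
            have he0 : e ∈ E0 := he.1
            simp only [he0, dif_pos, hW, Finset.coe_filter, Finset.mem_univ, true_and,
              mem_ofPred_eq]
            exact ⟨⟨e, he0⟩, rfl, he⟩
          · intro a ha b hb hab
            have ha0 : a ∈ E0 := ha.1
            have hb0 : b ∈ E0 := hb.1
            simp only [ha0, hb0, dif_pos] at hab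
            simpa using hab
        rw [encard_coe_eq_coe_finsetCard] at h1
        exact_mod_cast hk.trans h1
      have hdisj : Disjoint sL W := by
        rw [Finset.disjoint_left]
        intro x hx hx'
        rw [hsL, Finset.mem_filter] at hx
        rw [hW, Finset.mem_filter] at hx'
        obtain ⟨-, f, rfl, hf⟩ := hx'
        exact hf.2.2.2 f hx.1 rfl
      have hsub : sL ∪ W ⊆ s.biUnion (D.nb E0 v k) := by
        intro x hx
        rcases Finset.mem_union.1 hx with hx | hx
        · rw [hsL, Finset.mem_filter] at hx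
          obtain ⟨hx, f, rfl⟩ := hx
          exact hself f hx
        · rw [hW, Finset.mem_filter] at hx
          obtain ⟨-, f, rfl, hf⟩ := hx
          rw [Finset.mem_biUnion]
          have h1 : D.src f.1 ∉ X := hf.2.1
          by_cases h2 : D.src f.1 = D.root
          · exact ⟨_, hi, mem_nb_inr.2 ⟨f, rfl, h2⟩⟩
          · have h3 : ∃ e, Sum.inl e ∈ s ∧ D.tgt e.1 = D.src f.1 := by
              by_contra hcon
              push Not at hcon
              exact h1 ⟨h2, hcon⟩
            obtain ⟨e, he, hef⟩ := h3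
            exact ⟨_, he, mem_nb_inl.2 (Or.inr (Or.inl ⟨f, rfl, hef.symm⟩))⟩
      calc s.card = sL.card + sR.card := hcard
        _ ≤ sL.card + W.card := by omega
        _ = (sL ∪ W).card := (Finset.card_union_of_disjoint hdisj).symm
        _ ≤ _ := Finset.card_le_card hsub
  · refine Finset.card_le_card ?_
    intro x hx
    rcases x with f | j
    · exact hself f hx
    · exact absurd ⟨j, hx⟩ hR

theorem menger_finset (E0 : Finset E) {v : V} (hv : v ≠ D.root) (k : ℕ)
    (h : ∀ X : Set V, v ∈ X → D.root ∉ X → (k : ℕ∞) ≤ (D.din (E0 : Set E) X).encard) :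
    ∃ p : Fin k → List E, (∀ i, D.IsWalk D.root (p i) v ∧ ∀ e ∈ p i, e ∈ E0) ∧
      ∀ i j, i ≠ j → ∀ e ∈ p i, e ∉ p j := by
  classical
  obtain ⟨τ, hinj, hτ⟩ := (Finset.all_card_le_biUnion_card_iff_exists_injective
    (D.nb E0 v k)).1 (hall_cond E0 hv k h)
  -- walks along orbits
  have key : ∀ n (e : {x // x ∈ E0}), (∃ j, τ^[n] (Sum.inl e) = Sum.inr j) →
      ∃ l : List E, D.IsWalk (D.src e.1) l v ∧ ∀ f ∈ l, ∃ (hf : f ∈ E0) (m : ℕ),
        τ^[m] (Sum.inl e) = Sum.inl ⟨f, hf⟩ ∧ ∀ m' ≤ m, ∃ g, τ^[m'] (Sum.inl e) = Sum.inl g := by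
    intro n
    induction n with
    | zero =>
      rintro e ⟨j, hj⟩
      simp at hj
    | succ n ih =>
      rintro e ⟨j, hj⟩
      rw [Function.iterate_succ_apply] at hj
      have h1 := mem_nb_inl.1 (hτ (Sum.inl e))
      rcases h1 with h1 | ⟨f, h1, h2⟩ | ⟨h1, i, h2⟩
      · exfalso
        have h3 : τ^[n] (Sum.inl e) = Sum.inl e := Function.iterate_fixed h1 n
        rw [h1, h3] at hj
        cases hj
      · rw [h1] at hj
        obtain ⟨l, hl1, hl2⟩ := ih f ⟨j, hj⟩
        refine ⟨e.1 :: l, ⟨rfl, ?_⟩, ?_⟩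
        · rw [← h2]; exact hl1
        · intro g hg
          rcases List.mem_cons.1 hg with hg | hg
          · subst hg
            exact ⟨e.2, 0, rfl, fun m' hm' => ⟨e, by
              have : m' = 0 := by omega
              subst this; rfl⟩⟩
          · obtain ⟨hg0, m, hm1, hm2⟩ := hl2 g hg
            refine ⟨hg0, m + 1, ?_, ?_⟩
            · rw [Function.iterate_succ_apply, h1, hm1]
            · intro m' hm'
              cases m' with
              | zero => exact ⟨e, rfl⟩
              | succ m' =>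
                obtain ⟨g', hg'⟩ := hm2 m' (by omega)
                exact ⟨g', by rw [Function.iterate_succ_apply, h1, hg']⟩
      · refine ⟨[e.1], ⟨rfl, h1⟩, ?_⟩
        intro g hg
        have : g = e.1 := by simpa using hg
        subst this
        exact ⟨e.2, 0, rfl, fun m' hm' => ⟨e, by
              have : m' = 0 := by omega
              subst this; rfl⟩⟩
  have hstart : ∀ i : Fin k, ∃ e : {x // x ∈ E0}, τ (Sum.inr i) = Sum.inl e ∧
      D.src e.1 = D.root := fun i => mem_nb_inr.1 (hτ (Sum.inr i))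
  choose st hst1 hst2 using hstart
  have hret : ∀ i : Fin k, ∃ n, ∃ j, τ^[n] (Sum.inl (st i)) = Sum.inr j := by
    intro i
    have h1 := hinj.mem_periodicPts (Sum.inr i)
    rw [Function.mem_periodicPts] at h1
    obtain ⟨n, hn, h1⟩ := h1
    obtain ⟨m, rfl⟩ : ∃ m, n = m + 1 := ⟨n - 1, by omega⟩
    refine ⟨m, i, ?_⟩
    have h2 : τ^[m + 1] (Sum.inr i) = Sum.inr i := h1
    rw [Function.iterate_succ_apply, hst1] at h2
    exact h2
  choose nn hnn using hret
  have hp : ∀ i : Fin k, ∃ l : List E, D.IsWalk (D.src (st i).1) l v ∧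
      ∀ f ∈ l, ∃ (hf : f ∈ E0) (m : ℕ),
        τ^[m] (Sum.inl (st i)) = Sum.inl ⟨f, hf⟩ ∧
          ∀ m' ≤ m, ∃ g, τ^[m'] (Sum.inl (st i)) = Sum.inl g :=
    fun i => key (nn i) (st i) (hnn i)
  choose p hp1 hp2 using hp
  refine ⟨p, ?_, ?_⟩
  · intro i
    refine ⟨by rw [← hst2 i]; exact hp1 i, fun e he => (hp2 i e he).1⟩
  · -- disjointness
    have aux : ∀ i j m m', m ≤ m' → τ^[m] (Sum.inl (st i)) = τ^[m'] (Sum.inl (st j)) →
        (∀ n ≤ m', ∃ g, τ^[n] (Sum.inl (st j)) = Sum.inl g) → i = j := by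
      intro i j m m' hmm heq hg
      have h1 : τ^[m + 1] (Sum.inr i) = τ^[m' + 1] (Sum.inr j) := by
        rw [Function.iterate_succ_apply, Function.iterate_succ_apply, hst1, hst1, heq]
      obtain ⟨d, rfl⟩ : ∃ d, m' = m + d := ⟨m' - m, by omega⟩
      have h2 : τ^[m + 1] (Sum.inr i) = τ^[m + 1] (τ^[d] (Sum.inr j)) := by
        rw [h1, ← Function.iterate_add_apply, show m + d + 1 = m + 1 + d by omega]
      have h3 := hinj.iterate (m + 1) h2
      cases d with
      | zero => simpa using h3
      | succ d =>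
        rw [Function.iterate_succ_apply, hst1] at h3
        obtain ⟨g, hg⟩ := hg d (by omega)
        rw [hg] at h3
        cases h3
    intro i j hij e hei hej
    obtain ⟨he, m, hm1, hm2⟩ := hp2 i e hei
    obtain ⟨he', m', hm1', hm2'⟩ := hp2 j e hej
    rcases le_total m m' with hmm | hmm
    · exact hij (aux i j m m' hmm (by rw [hm1, hm1']) hm2')
    · exact hij (aux j i m' m hmm (by rw [hm1, hm1']) hm2).symm

/-- compactness: if every set has at least `k` entering edges of `L`, finitely many edges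
of `L` suffice for this -/
theorem finite_sub (L : Set E) (v : V) (k : ℕ)
    (h : ∀ X : Set V, v ∈ X → D.root ∉ X → (k : ℕ∞) ≤ (D.din L X).encard) :
    ∃ E0 : Finset E, (E0 : Set E) ⊆ L ∧
      ∀ X : Set V, v ∈ X → D.root ∉ X → (k : ℕ∞) ≤ (D.din (E0 : Set E) X).encard := by
  classical
  -- choose finite subsets
  have h1 : ∀ X : Set V, ∃ K : Finset E, (K : Set E) ⊆ D.din L X ∧
      (v ∈ X → D.root ∉ X → k ≤ K.card) := by
    intro X
    by_cases hX : v ∈ X ∧ D.root ∉ X
    · obtain ⟨t, ht1, ht2⟩ := exists_subset_encard_eq (h X hX.1 hX.2)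
      have htf : t.Finite := by
        rw [← encard_lt_top_iff, ht2]; exact ENat.natCast_lt_top k
      refine ⟨htf.toFinset, by simpa using ht1, fun _ _ => ?_⟩
      have : ((htf.toFinset : Set E)).encard = k := by simpa using ht2
      rw [encard_coe_eq_coe_finsetCard] at this
      exact_mod_cast this.ge
    · exact ⟨∅, by simp, fun a b => absurd ⟨a, b⟩ hX⟩
  choose K hK1 hK2 using h1
  let toS : (V → Bool) → Set V := fun χ => {x | χ x = true}
  let Uo : (V → Bool) → Set (V → Bool) := fun χ =>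
    ⋂ e ∈ K (toS χ), ({ξ | ξ (D.src e) = false} ∩ {ξ | ξ (D.tgt e) = true})
  have hopen : ∀ χ, Uo χ ∈ nhds χ := by
    intro χ
    refine IsOpen.mem_nhds ?_ ?_
    · refine isOpen_biInter_finset ?_
      intro e _
      refine IsOpen.inter ?_ ?_
      · exact (isOpen_discrete ({false} : Set Bool)).preimage
          (continuous_apply (A := fun _ : V => Bool) (D.src e))
      · exact (isOpen_discrete ({true} : Set Bool)).preimage
          (continuous_apply (A := fun _ : V => Bool) (D.tgt e))
    · simp only [Uo, mem_iInter]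
      intro e he
      have h2 := hK1 (toS χ) he
      refine ⟨?_, h2.2.2⟩
      have h3 : ¬ (χ (D.src e) = true) := h2.2.1
      simpa using h3
  have hclosed : IsClosed ({χ : V → Bool | χ v = true} ∩ {χ : V → Bool | χ D.root = false}) := by
    refine IsClosed.inter ?_ ?_
    · exact (isClosed_discrete ({true} : Set Bool)).preimage
        (continuous_apply (A := fun _ : V => Bool) v)
    · exact (isClosed_discrete ({false} : Set Bool)).preimage
        (continuous_apply (A := fun _ : V => Bool) D.root)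
  obtain ⟨T, hTs, hT⟩ := hclosed.isCompact.elim_nhds_subcover Uo (fun χ _ => hopen χ)
  refine ⟨T.biUnion (fun χ => K (toS χ)), ?_, ?_⟩
  · intro e he
    rw [Finset.mem_coe, Finset.mem_biUnion] at he
    obtain ⟨χ, -, he⟩ := he
    exact (hK1 _ he).1
  · intro X hvX hrX
    have h2 : (fun x => decide (x ∈ X)) ∈
        ({χ : V → Bool | χ v = true} ∩ {χ : V → Bool | χ D.root = false}) := by
      constructor
      · simpa using hvX
      · simpa using hrX
    have h3 := hT h2
    simp only [mem_iUnion] at h3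
    obtain ⟨χ, hχ, h4⟩ := h3
    simp only [Uo, mem_iInter] at h4
    have hχv : v ∈ toS χ := (hTs χ hχ).1
    have hχr : D.root ∉ toS χ := by
      have h5 : χ D.root = false := (hTs χ hχ).2
      simp [toS, h5]
    have h5 : ((K (toS χ) : Set E)) ⊆
        D.din ((T.biUnion (fun χ => K (toS χ)) : Finset E) : Set E) X := by
      intro e he
      have h6 := h4 e he
      refine ⟨?_, ?_, ?_⟩
      · rw [Finset.mem_coe, Finset.mem_biUnion]
        exact ⟨χ, hχ, he⟩
      · have := h6.1
        simpa using this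
      · have := h6.2
        simpa using this
    have h7 := encard_le_encard h5
    rw [encard_coe_eq_coe_finsetCard] at h7
    have h8 := hK2 _ hχv hχr
    exact le_trans (by exact_mod_cast h8) h7

/-- Menger's theorem (edge version, finitely many walks, arbitrary digraph) -/
theorem menger (L : Set E) {v : V} (hv : v ≠ D.root) (k : ℕ)
    (h : ∀ X : Set V, v ∈ X → D.root ∉ X → (k : ℕ∞) ≤ (D.din L X).encard) :
    ∃ p : Fin k → List E, (∀ i, D.IsWalk D.root (p i) v ∧ ∀ e ∈ p i, e ∈ L) ∧
      ∀ i j, i ≠ j → ∀ e ∈ p i, e ∉ p j := by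
  obtain ⟨E0, hE0, h0⟩ := finite_sub L v k h
  obtain ⟨p, hp1, hp2⟩ := menger_finset E0 hv k h0
  exact ⟨p, fun i => ⟨(hp1 i).1, fun e he => hE0 ((hp1 i).2 e he)⟩, hp2⟩

end RootedDigraph

end Pool.Agent.H38.Flame
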